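import Pool.Agent.helper42.TB.Z2
import Pool.Agent.helper1.ML.H6

/-!
# Every free-by-cyclic group has the Morse local-to-global property

For every automorphism `φ` of the free group `F_n` (`n` finite), every finite generating set `S` of
`F_n ⋊_φ ℤ` and every metric space `X` quasi-isometric to the Cayley graph of `F_n ⋊_φ ℤ` with
respect to `S`, the space `X` has the Morse local-to-global property. This is a positive answer to
question Q1.
-/

namespace Pool.Agent.Results.MP_323ab2_al.FreeByCyclic

open Pool.Agent.helper42.ML Pool.Agent.TB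

theorem result (n : ℕ) (φ : MulAut (FreeGroup (Fin n))) (S : Set (MT (FreeGroup (Fin n)) φ))
    (hS : S.Finite) (hgen : Subgroup.closure S = ⊤) {X : Type*} [MetricSpace X]
    (f : X → MT (FreeGroup (Fin n)) φ) (Q : ℝ) (hQ : 0 < Q) (hf : IsQI (cay S) f Q) : MLTG X := by
  obtain ⟨k, hk, hT⟩ := all_TW n φ
  have hT1 := hT 1 le_rfl
  have hk1 : 1 ≤ k * 1 := by rw [mul_one]; exact hk
  obtain ⟨S', hS', hgen', -⟩ := hT1.gen
  obtain ⟨f', Q', hQ', hf'⟩ := MT_power φ (k * 1) hk1 S hS hgen S' hS' hgen' f Q hQ hf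
  exact mltg_of_LGT (cay_connected hgen') (hT1.lg S' hS' hgen') hf' hQ'

end Pool.Agent.Results.MP_323ab2_al.FreeByCyclic
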